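import Pool.Agent.Y36.SG.Grig
import Pool.Agent.Y36.SG.Expo

set_option autoImplicit false

/-!
# Balls and spheres in arbitrary finitely generated groups

For a set `S` of generators of a group, `wball S n` and `wsph S n` are the numbers of elements of
word length at most `n` and exactly `n` (letters from `S` and inverses), and `Dom f h` means that
`f n ≤ h (C n)` for a constant `C ≥ 1` and all `n ≥ 1` (`Pool/Agent/Y36/SG/Basic.lean`).  The first
Grigorchuk group `G` and its functions `ball`, `sph` with respect to `a, b, c, d` are in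
`Pool/Agent/Results/MP_03d093_al/SphereBall.lean`.
-/

namespace Pool.Agent.Results.MP_03d093_al.AllGroups

open Pool.Agent.Y36.SG

/-- **Theorem.**  Let `S` be a finite generating set of an infinite group.
(1) `γ(n) ≤ (2 n + 1) γ^sph(N)` for all `n ≤ N`.
(2) `γ ≼ γ^sph` if and only if `n γ(n) ≼ γ(n)`.
(3) If this holds for `S`, then for any two finite generating sets `T, T'` of the group there is a
constant `C` with `γ_T(n) ≤ γ_{T'}^sph(N)` for all `n ≥ 1` and all `N ≥ C n`; and the growth is
superpolynomial.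
(4) It holds if `H × H` embeds in the group for some subgroup `H` of finite index, and it holds if
the growth is exponential.
(5) It holds for the first Grigorchuk group; so there, for any two finite generating sets `T, T'`,
`γ_T(n) ≤ γ_{T'}^sph(N)` for all `n ≥ 1` and all `N ≥ C n`; in particular
`γ_G^sph ∼ γ_G` for the generating set `{a, b, c, d}`. -/
theorem result :
    (∀ (Γ : Type) [Group Γ] [Infinite Γ] (S : Set Γ), S.Finite → Subgroup.closure S = ⊤ →
      (∀ n N : ℕ, n ≤ N → wball S n ≤ (2 * n + 1) * wsph S N) ∧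
      (Dom (wball S) (wsph S) ↔ Dom (fun n => n * wball S n) (wball S)) ∧
      (Dom (wball S) (wsph S) →
        (∀ T T' : Set Γ, T.Finite → Subgroup.closure T = ⊤ → T'.Finite →
          Subgroup.closure T' = ⊤ → ∃ C : ℕ, 1 ≤ C ∧
            ∀ n : ℕ, 1 ≤ n → ∀ N : ℕ, C * n ≤ N → wball T n ≤ wsph T' N) ∧
        ∀ K d : ℕ, ∃ n : ℕ, 1 ≤ n ∧ K * n ^ d < wball S n) ∧
      (∀ (H : Subgroup Γ) [H.FiniteIndex] (φ : H × H →* Γ), Function.Injective φ →
        Dom (wball S) (wsph S)) ∧
      (∀ c : ℝ, 1 < c → (∀ n : ℕ, c ^ n ≤ (wball S n : ℝ)) → Dom (wball S) (wsph S))) ∧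
    (∀ T T' : Set SphereBall.G, T.Finite → Subgroup.closure T = ⊤ → T'.Finite →
      Subgroup.closure T' = ⊤ → ∃ C : ℕ, 1 ≤ C ∧
        ∀ n : ℕ, 1 ≤ n → ∀ N : ℕ, C * n ≤ N → wball T n ≤ wsph T' N) ∧
    (SphereBall.Dom SphereBall.sph SphereBall.ball ∧
      SphereBall.Dom SphereBall.ball SphereBall.sph) := by
  refine ⟨?_, ?_, SphereBall.result⟩
  · intro Γ _ _ S hf hS
    refine ⟨fun n N h => ball_le_sphere hf hS h, dom_iff hf hS, ?_, ?_, ?_⟩
    · intro h
      rw [dom_iff hf hS] at h
      exact ⟨fun T T' hT hT1 hT' hT1' => all_spheres hf hS h hT hT1 hT' hT1',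
        not_poly hf hS h⟩
    · intro H _ φ hφ
      rw [dom_iff hf hS]
      exact dom_of_square hf hS H φ hφ
    · intro c hc h
      rw [dom_iff hf hS]
      exact dom_of_exp hf hS c hc h
  · intro T T' hT hT1 hT' hT1'
    exact all_spheres gens_finite gens_closure grig_dom hT hT1 hT' hT1'

end Pool.Agent.Results.MP_03d093_al.AllGroups
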